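import Pool.Agent.Helper18.EW.Goals3

/-! # Project EW (MP_d3128a_ag), packet FA: the main case -/

namespace Pool.Agent.Helper51.EW

open Finset Pool.Agent.Helper18.EW
open Pool.Agent.Helper43.Hw (T)
open Pool.Agent.Lead.Sh

lemma T_choose (m : ℕ) : T m = (m + 1).choose 2 := by
  unfold T
  rw [Nat.choose_two_right, Nat.add_sub_cancel, mul_comm]

lemma two_choose (m : ℕ) : 2 * (m + 1).choose 2 = m * (m + 1) := by
  rw [Nat.choose_two_right, Nat.add_sub_cancel]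
  have h : 2 ∣ (m + 1) * m := by
    rw [mul_comm]
    exact (Nat.even_mul_succ_self m).two_dvd
  rw [Nat.mul_div_cancel' h, mul_comm]

lemma K_le {n m b l Lg q : ℕ} (h1 : 1 ≤ Lg) (h2 : 2 ^ 85 * Lg ^ 3 ≤ n) (hl : 1 ≤ l)
    (hb : 2 ^ 31 * b * Lg ^ 2 * l ≤ m) (hm : m ≤ l * (2 ^ 75 * Lg ^ 3 + 2 * Nat.sqrt n))
    (hq : q + 1 ≤ Lg) : b * (q + 1) ≤ n := by
  have e1 : l * (2 ^ 31 * b * Lg ^ 2) ≤ l * (2 ^ 75 * Lg ^ 3 + 2 * Nat.sqrt n) := by
    calc l * (2 ^ 31 * b * Lg ^ 2) = 2 ^ 31 * b * Lg ^ 2 * l := by ring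
      _ ≤ _ := hb.trans hm
  have e2 : 2 ^ 31 * b * Lg ^ 2 ≤ 2 ^ 75 * Lg ^ 3 + 2 * Nat.sqrt n := Nat.le_of_mul_le_mul_left e1 hl
  have e3 : Nat.sqrt n ≤ n := Nat.sqrt_le_self n
  have e4 : b * (q + 1) ≤ b * Lg ^ 2 := Nat.mul_le_mul_left _ (hq.trans (by nlinarith))
  have e5 : 2 ^ 31 * b * Lg ^ 2 = 2 ^ 31 * (b * Lg ^ 2) := by ring
  rw [e5] at e2
  have e6 : 2 ^ 85 * Lg ^ 3 = 2 ^ 10 * (2 ^ 75 * Lg ^ 3) := by ring
  rw [e6] at h2
  generalize b * Lg ^ 2 = B at *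
  generalize 2 ^ 75 * Lg ^ 3 = C at *
  omega

theorem goalFA : GoalFA := by
  intro hF1 hNA hNB hGame hLn hTri n m d Lg W h1 h2 h3 h4 h5 h6 h7
  have hn0 : 0 < n := by
    have : 0 < 2 ^ 85 * Lg ^ 3 := by positivity
    omega
  have hm1 : 1 ≤ m := by
    by_contra h
    have : m = 0 := by omega
    subst this
    omega
  have hd2 : 2 * (d + 2).choose 2 = (d + 1) * (d + 2) := two_choose (d + 1)
  have hm2 := two_choose m
  have heq : (d + 1) * (d + 2) = n * (m * (m + 1)) + 2 * W ∨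
      (d + 1) * (d + 2) + 2 * W = n * (m * (m + 1)) := by
    rw [← hd2, ← hm2]
    generalize (d + 2).choose 2 = A at *
    generalize (m + 1).choose 2 = B at *
    have e1 : n * (2 * B) = 2 * (n * B) := by ring
    rw [e1]
    have e2 : (n : ℤ) * B = ((n * B : ℕ) : ℤ) := by push_cast; ring
    rw [e2] at h6
    generalize n * B = C at *
    rcases abs_cases ((A : ℤ) - C) with ⟨e, _⟩ | ⟨e, _⟩
    · left; omega
    · right; omega
  obtain ⟨p, l, b, p1, pd, p100, p4, p8, l1, b1, b2, b3, b4, b5⟩ :=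
    hNA n m d W Lg h1 h2 h3 h4 h5 heq
  have hb1 : 1 ≤ b := by
    have : 1 ≤ 2 ^ 40 * Lg := by nlinarith
    omega
  obtain ⟨c1, c2⟩ := h7 l b l1 hb1 b2 b5
  obtain ⟨q, v, w, q1, v1, v2, v3, w1, w2, w3, w4, w5⟩ :=
    hNB m l b Lg W l1 h1 b1 b2 b4 h5 c1 c2
  have hK : b * (q + 1) ≤ n := K_le h1 h2 l1 b2 b5 q1
  have hNK : n - b * (q + 1) + b * (q + 1) = n := Nat.sub_add_cancel hK
  obtain ⟨hLen, hsum⟩ := hLn hF1 p d p1 pd
  have hPar : Par m (d / p + 1) (b * (q + 1)) b l Lg q :=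
    { l1 := l1, R1 := p100, L1 := h1, qL := q1, hK := rfl, b1 := b1
      b2 := by
        refine le_trans ?_ b2
        refine Nat.mul_le_mul_right _ (Nat.mul_le_mul_left _ (Nat.pow_le_pow_left q1 2))
      hL := b3 }
  have hW : ∑ z ∈ range (d / p + 1), (Pool.Agent.Helper18.SG.rl p d z : ℤ) =
      (((n - b * (q + 1) : ℕ) : ℤ) + ((b * (q + 1) : ℕ) : ℤ)) * T m +
        (((d + 2).choose 2 : ℤ) - n * (m + 1).choose 2) := by
    have e1 : ((n - b * (q + 1) : ℕ) : ℤ) + ((b * (q + 1) : ℕ) : ℤ) = n := by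
      exact_mod_cast hNK
    rw [e1, T_choose, ← hsum]
    push_cast
    ring
  have w4' : 2 ^ 14 * l * |((d + 2).choose 2 : ℤ) - n * (m + 1).choose 2| ≤
      ((w ^ 2 * (b * l + w) : ℕ) : ℤ) := by
    rw [h6]
    exact_mod_cast w4
  have w5' : ((w * (2 ^ 25 * m + b * l * w) : ℕ) : ℤ) ≤
      2 ^ 20 * l * |((d + 2).choose 2 : ℤ) - n * (m + 1).choose 2| := by
    rw [h6]
    exact_mod_cast w5
  obtain ⟨κ, x, e, P, τ, s, E, g1, g2, g3, g4, g5, g6⟩ :=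
    hGame m (d / p + 1) (n - b * (q + 1)) (b * (q + 1)) b l Lg q (p ^ 2) v w
      (Pool.Agent.Helper18.SG.rl p d) (((d + 2).choose 2 : ℤ) - n * (m + 1).choose 2) hPar hLen
      p4 p8 v1 v2 v3 hW w1 w2 w3 w4' w5'
  obtain ⟨t1, t2⟩ := hTri p d m (n - b * (q + 1)) (b * (q + 1)) τ s E κ x e P p1 hm1 (by omega)
    g1 g2 g3 g4 g5
  rw [hNK] at t1 t2
  rcases g6 with ⟨hw, hz⟩ | ⟨hw, hz⟩
  · left
    refine ⟨?_, t2 hz⟩
    have : (n : ℤ) * (m + 1).choose 2 ≤ (d + 2).choose 2 := by linarith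
    exact_mod_cast this
  · right
    refine ⟨?_, t1 hz⟩
    have : ((d + 2).choose 2 : ℤ) ≤ (n : ℤ) * (m + 1).choose 2 := by linarith
    exact_mod_cast this

end Pool.Agent.Helper51.EW
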